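import Mathlib

/-!
# Right-angled Artin groups without sharply `k`-transitive actions on `(ℚ, <)`

The right-angled Artin group of the following threshold graph on the natural numbers is not
cyclic, is not a direct product of two nontrivial groups, and has no sharply `k`-transitive
order-preserving action on `ℚ` for any `k ≥ 2`.
-/

set_option autoImplicit false

namespace Pool.Agent.Results.MP_781439_al.InfiniteGraph

universe u

/-- The relators `u v u⁻¹ v⁻¹`, one for each pair of adjacent vertices. -/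
def rels {V : Type u} (Γ : SimpleGraph V) : Set (FreeGroup V) :=
  {r | ∃ v w, Γ.Adj v w ∧ r = FreeGroup.of v * FreeGroup.of w * (FreeGroup.of v)⁻¹ *
    (FreeGroup.of w)⁻¹}

/-- The right-angled Artin group `A_Γ`. -/
abbrev RAAG {V : Type u} (Γ : SimpleGraph V) : Type u := PresentedGroup (rels Γ)

/-- The order-preserving action given by `ρ` is sharply `k`-transitive: for any two `k`-element
subsets `A`, `B` of `ℚ` there is exactly one group element mapping `A` onto `B`. -/
def SharplyTransitive {G : Type u} [Group G] (k : ℕ) (ρ : G →* (ℚ ≃o ℚ)) : Prop :=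
  ∀ A B : Finset ℚ, A.card = k → B.card = k → ∃! g : G, A.image (ρ g) = B

section general
variable {V : Type u} (Γ : SimpleGraph V)

abbrev gen (v : V) : RAAG Γ := PresentedGroup.of v

theorem gen_comm {v w : V} (h : Γ.Adj v w) : Commute (gen Γ v) (gen Γ w) := by
  have : PresentedGroup.mk (rels Γ) (FreeGroup.of v * FreeGroup.of w * (FreeGroup.of v)⁻¹ *
      (FreeGroup.of w)⁻¹) = 1 :=
    PresentedGroup.one_of_mem ⟨v, w, h, rfl⟩
  rw [map_mul, map_mul, map_mul, map_inv, map_inv, mul_inv_eq_one, mul_inv_eq_iff_eq_mul] at this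
  exact this

noncomputable def lft {P : Type*} [Group P] (f : V → P)
    (h2 : ∀ v w, Γ.Adj v w → f v * f w = f w * f v) : RAAG Γ →* P :=
  PresentedGroup.toGroup (f := f) (by
    rintro r ⟨v, w, h, rfl⟩
    rw [map_mul, map_mul, map_mul, map_inv, map_inv, FreeGroup.lift_apply_of,
      FreeGroup.lift_apply_of, mul_inv_eq_one, mul_inv_eq_iff_eq_mul]
    exact h2 v w h)

theorem lft_gen {P : Type*} [Group P] (f : V → P)
    (h2 : ∀ v w, Γ.Adj v w → f v * f w = f w * f v) (v : V) : lft Γ f h2 (gen Γ v) = f v :=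
  PresentedGroup.toGroup.of _

theorem gen_ne_one (v : V) : gen Γ v ≠ 1 := by
  intro h
  have := lft_gen Γ (P := Multiplicative ℤ) (fun _ => Multiplicative.ofAdd 1)
    (fun _ _ _ => rfl) v
  rw [h, map_one] at this
  exact absurd this (by decide)

end general

/-! ### the graph -/

/-- The threshold graph: for `i < j` the vertices `i` and `j` are adjacent iff `j` is even. -/
def Thr : SimpleGraph ℕ where
  Adj i j := (i < j ∧ Even j) ∨ (j < i ∧ Even i)
  symm := ⟨fun _ _ h => h.symm⟩
  loopless := ⟨fun i h => by rcases h with h | h <;> exact lt_irrefl i h.1⟩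

abbrev A := RAAG Thr
abbrev v (i : ℕ) : A := gen Thr i

/-- the subgroup generated by the first vertices -/
def Kn (n : ℕ) : Subgroup A := Subgroup.closure (v '' {i | i < n})

theorem Kn_mono {m n : ℕ} (h : m ≤ n) : Kn m ≤ Kn n :=
  Subgroup.closure_mono (Set.image_mono (fun _ hi => lt_of_lt_of_le hi h))

theorem exists_Kn (g : A) : ∃ n, g ∈ Kn n := by
  have hg : g ∈ Subgroup.closure (Set.range (PresentedGroup.of (rels := rels Thr))) := by
    rw [PresentedGroup.closure_range_of]; exact Subgroup.mem_top g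
  induction hg using Subgroup.closure_induction with
  | mem x hx =>
    obtain ⟨i, rfl⟩ := hx
    exact ⟨i + 1, Subgroup.subset_closure ⟨i, Nat.lt_succ_self i, rfl⟩⟩
  | one => exact ⟨0, one_mem _⟩
  | mul x y _ _ ihx ihy =>
    obtain ⟨n, hn⟩ := ihx
    obtain ⟨m, hm⟩ := ihy
    exact ⟨max n m, mul_mem (Kn_mono (le_max_left _ _) hn) (Kn_mono (le_max_right _ _) hm)⟩
  | inv x _ ih =>
    obtain ⟨n, hn⟩ := ih
    exact ⟨n, inv_mem hn⟩

theorem even_comm {n j : ℕ} (hj : n ≤ j) (he : Even j) {g : A} (hg : g ∈ Kn n) :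
    Commute g (v j) := by
  have : Kn n ≤ Subgroup.centralizer {v j} := by
    unfold Kn
    rw [Subgroup.closure_le]
    rintro _ ⟨i, hi, rfl⟩
    rw [SetLike.mem_coe, Subgroup.mem_centralizer_iff]
    rintro _ rfl
    exact (gen_comm Thr (Or.inl ⟨lt_of_lt_of_le hi hj, he⟩ : Thr.Adj i j)).symm
  have h := this hg
  rw [Subgroup.mem_centralizer_iff] at h
  exact (h _ rfl).symm

/-! ### not a direct product -/

open Monoid.CoprodI in
theorem ne_prod_ne_one {M : Bool → Type} [∀ b, Group (M b)] {i j : Bool} (w : NeWord M i j) :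
    w.prod ≠ 1 := by
  classical
  intro h
  have h1 : Word.equiv.symm w.toWord = Word.equiv.symm (Word.empty : Word M) := by
    show w.toWord.prod = Word.prod Word.empty
    rw [Word.prod_empty]; exact h
  have h2 := Word.equiv.symm.injective h1
  exact w.toList_ne_nil (congrArg Word.toList h2)

abbrev FP := Monoid.CoprodI (fun _ : Bool => A)

/-- for odd `j`: the first `j` vertices go to one factor, `j` to the other one -/
noncomputable def F (j : ℕ) (hj : ¬ Even j) : A →* FP :=
  lft Thr (fun i => if i < j then Monoid.CoprodI.of (i := true) (v i) else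
    if i = j then Monoid.CoprodI.of (i := false) (v j) else 1) (by
    have key : ∀ a b : ℕ, a < b → Even b →
        (if a < j then Monoid.CoprodI.of (M := fun _ : Bool => A) (i := true) (v a) else
          if a = j then Monoid.CoprodI.of (i := false) (v j) else 1) *
        (if b < j then Monoid.CoprodI.of (i := true) (v b) else
          if b = j then Monoid.CoprodI.of (i := false) (v j) else 1) =
        (if b < j then Monoid.CoprodI.of (i := true) (v b) else
          if b = j then Monoid.CoprodI.of (i := false) (v j) else 1) *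
        (if a < j then Monoid.CoprodI.of (i := true) (v a) else
          if a = j then Monoid.CoprodI.of (i := false) (v j) else 1) := by
      intro a b hab hb
      have hbj : b ≠ j := by rintro rfl; exact hj hb
      by_cases h1 : b < j
      · rw [if_pos h1, if_pos (lt_trans hab h1), ← map_mul, ← map_mul]
        congr 1
        exact gen_comm Thr (Or.inl ⟨hab, hb⟩)
      · rw [if_neg h1, if_neg hbj, mul_one, one_mul]
    intro a b h
    rcases h with ⟨h1, h2⟩ | ⟨h1, h2⟩
    · exact key a b h1 h2
    · exact (key b a h1 h2).symm)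

theorem F_Kn {j : ℕ} (hj : ¬ Even j) {g : A} (hg : g ∈ Kn j) :
    F j hj g = Monoid.CoprodI.of (i := true) g := by
  unfold Kn at hg
  induction hg using Subgroup.closure_induction with
  | mem x hx =>
    obtain ⟨i, hi, rfl⟩ := hx
    rw [F, lft_gen, if_pos (show i < j from hi)]
  | one => rw [map_one, map_one]
  | mul x y _ _ hx hy => rw [map_mul, map_mul, hx, hy]
  | inv x _ hx => rw [map_inv, map_inv, hx]

theorem F_j {j : ℕ} (hj : ¬ Even j) : F j hj (v j) = Monoid.CoprodI.of (i := false) (v j) := by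
  rw [F, lft_gen, if_neg (lt_irrefl j), if_pos rfl]

theorem not_commute {j : ℕ} (hj : ¬ Even j) {g h : A} (hg : g ∈ Kn j) (hh : h ∈ Kn j) (hg1 : g ≠ 1)
    (hh1 : h ≠ 1) : ¬ Commute (v j * g * (v j)⁻¹) h := by
  intro hc
  have h1 : v j * g * (v j)⁻¹ * h * (v j) * g⁻¹ * (v j)⁻¹ * h⁻¹ = 1 := by
    have e : v j * g * (v j)⁻¹ * h = h * (v j * g * (v j)⁻¹) := hc
    rw [e]; group
  have h2 := congrArg (F j hj) h1
  simp only [map_mul, map_inv, F_Kn hj hg, F_Kn hj hh, F_j, map_one] at h2
  have hv : v j ≠ 1 := gen_ne_one Thr j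
  let M : Bool → Type := fun _ => A
  let t : Monoid.CoprodI.NeWord M false false := .singleton (v j) hv
  let t' : Monoid.CoprodI.NeWord M false false := .singleton (v j)⁻¹ (inv_ne_one.2 hv)
  let x : Monoid.CoprodI.NeWord M true true := .singleton g hg1
  let x' : Monoid.CoprodI.NeWord M true true := .singleton g⁻¹ (inv_ne_one.2 hg1)
  let y : Monoid.CoprodI.NeWord M true true := .singleton h hh1
  let y' : Monoid.CoprodI.NeWord M true true := .singleton h⁻¹ (inv_ne_one.2 hh1)
  let W : Monoid.CoprodI.NeWord M false true :=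
    (((((((t.append (by decide) x).append (by decide) t').append (by decide) y).append
      (by decide) t).append (by decide) x').append (by decide) t').append (by decide) y')
  apply ne_prod_ne_one W
  simp only [W, t, t', x, x', y, y', Monoid.CoprodI.NeWord.append_prod,
    Monoid.CoprodI.NeWord.prod_singleton, map_inv]
  exact h2

theorem not_prod {H1 H2 : Type u} [Group H1] [Group H2] [Nontrivial H1] [Nontrivial H2]
    (e : A ≃* H1 × H2) : False := by
  obtain ⟨a, ha⟩ := exists_ne (1 : H1)
  obtain ⟨b, hb⟩ := exists_ne (1 : H2)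
  obtain ⟨n, hn⟩ := exists_Kn (e.symm (a, 1))
  obtain ⟨m, hm⟩ := exists_Kn (e.symm (1, b))
  have hodd : ¬ Even (2 * (n + m) + 1) := by
    rw [Nat.not_even_iff_odd]; exact ⟨n + m, rfl⟩
  have ha' : e.symm (a, 1) ≠ 1 := by
    intro h
    have := congrArg e h
    rw [MulEquiv.apply_symm_apply, map_one] at this
    exact ha (congrArg Prod.fst this)
  have hb' : e.symm (1, b) ≠ 1 := by
    intro h
    have := congrArg e h
    rw [MulEquiv.apply_symm_apply, map_one] at this
    exact hb (congrArg Prod.snd this)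
  apply not_commute hodd (Kn_mono (by omega) hn) (Kn_mono (by omega) hm) ha' hb'
  show _ = _
  apply e.injective
  simp only [map_mul, map_inv, MulEquiv.apply_symm_apply]
  apply Prod.ext <;> simp

theorem not_cyclic : ¬ IsCyclic A := by
  intro h
  have hc : v 0 * v 1 = v 1 * v 0 := by
    obtain ⟨g, hg⟩ := h
    obtain ⟨m, hm⟩ := hg (v 0)
    obtain ⟨n, hn⟩ := hg (v 1)
    simp only at hm hn
    rw [← hm, ← hn, ← zpow_add, ← zpow_add, add_comm]
  have h1 := not_commute (j := 1) (by decide) (g := v 0) (h := v 0)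
    (Subgroup.subset_closure ⟨0, by decide, rfl⟩) (Subgroup.subset_closure ⟨0, by decide, rfl⟩)
    (gen_ne_one Thr 0) (gen_ne_one Thr 0)
  apply h1
  rw [← hc, mul_assoc, mul_inv_cancel, mul_one]

/-! ### no sharply transitive action -/

section action
variable {k : ℕ} (hk : 2 ≤ k) {ρ : A →* (ℚ ≃o ℚ)} (hρ : SharplyTransitive k ρ)
include hk hρ

omit hk in
theorem fix_finite {g : A} (hg : g ≠ 1) : {x : ℚ | ρ g x = x}.Finite := by
  by_contra hinf
  obtain ⟨S, hS, hSk⟩ := Set.Infinite.exists_subset_card_eq hinf k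
  obtain ⟨h, _, hu⟩ := hρ S S hSk hSk
  have h1 : S.image (ρ 1) = S := by
    rw [map_one]; exact Finset.image_id
  have h2 : S.image (ρ g) = S := by
    have : S.image (ρ g) = S.image id := Finset.image_congr (fun x hx => hS hx)
    rw [this]; exact Finset.image_id
  exact hg ((hu _ h2).trans (hu _ h1).symm)

/-- an element commuting with a nontrivial element fixing `p` fixes `p` -/
theorem fix_comm {g h : A} (hg : g ≠ 1) {p : ℚ} (hp : ρ g p = p) (hc : Commute g h) :
    ρ h p = p := by
  have hfin := fix_finite hρ hg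
  have hmem : ∀ (h : A), Commute g h → ∀ x, ρ g x = x → ρ g (ρ h x) = ρ h x := by
    intro h hc x hx
    have h1 : ρ (g * h) x = ρ (h * g) x := by rw [hc.eq]
    rw [map_mul, map_mul] at h1
    have h2 : ρ g (ρ h x) = ρ h (ρ g x) := h1
    rw [h2, hx]
  -- iterate
  have key : ∀ (h : A), Commute g h → ¬ p < ρ h p := by
    intro h hc hlt
    have hiter : ∀ n : ℕ, ρ (h ^ n) p < ρ (h ^ (n + 1)) p := by
      intro n
      rw [pow_succ, map_mul]
      exact (ρ (h ^ n)).strictMono hlt
    have hmono : StrictMono (fun n : ℕ => ρ (h ^ n) p) := strictMono_nat_of_lt_succ hiter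
    have hsub : Set.range (fun n : ℕ => ρ (h ^ n) p) ⊆ {x : ℚ | ρ g x = x} := by
      rintro _ ⟨n, rfl⟩
      exact hmem _ (hc.pow_right n) p hp
    exact Set.infinite_range_of_injective hmono.injective (hfin.subset hsub)
  rcases lt_trichotomy (ρ h p) p with h1 | h1 | h1
  · exfalso
    apply key h⁻¹ hc.inv_right
    have h2 : ρ h⁻¹ (ρ h p) < ρ h⁻¹ p := (ρ h⁻¹).strictMono h1
    have h3 : ρ h⁻¹ (ρ h p) = p := by
      have : ρ (h⁻¹ * h) p = p := by rw [inv_mul_cancel, map_one]; rfl
      rwa [map_mul] at this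
    rwa [h3] at h2
  · exact h1
  · exact absurd h1 (key h hc)

theorem no_action : False := by
  -- the sets `{c, c+1, ..., c+k-1}` variants
  let S : ℚ → ℚ → Finset ℚ := fun p s => (Finset.range k).image (fun i : ℕ => p + s * i)
  have hcard : ∀ p s : ℚ, 0 < s → (S p s).card = k := by
    intro p s hs
    rw [Finset.card_image_of_injective, Finset.card_range]
    intro i j hij
    have h1 : s * (i : ℚ) = s * (j : ℚ) := add_left_cancel hij
    have h2 := mul_left_cancel₀ hs.ne' h1
    exact_mod_cast h2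
  have hpmem : ∀ p s : ℚ, p ∈ S p s := fun p s =>
    Finset.mem_image.2 ⟨0, Finset.mem_range.2 (by omega), by simp⟩
  have hmin : ∀ p s : ℚ, 0 < s → ∀ x ∈ S p s, p ≤ x := by
    intro p s hs x hx
    obtain ⟨i, _, rfl⟩ := Finset.mem_image.1 hx
    have : 0 ≤ s * (i : ℚ) := by positivity
    linarith
  have hmap : ∀ (p q s t : ℚ) (g : A), 0 < s → 0 < t → (S p s).image (ρ g) = S q t → ρ g p = q := by
    intro p q s t g hs ht h
    apply le_antisymm
    · have hq : q ∈ (S p s).image (ρ g) := by rw [h]; exact hpmem q t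
      obtain ⟨x, hx, hxq⟩ := Finset.mem_image.1 hq
      rw [← hxq]
      exact (ρ g).monotone (hmin p s hs x hx)
    · apply hmin q t ht
      rw [← h]
      exact Finset.mem_image_of_mem _ (hpmem p s)
  -- a nontrivial element fixing `0`
  obtain ⟨g, hg, _⟩ := hρ (S 0 1) (S 0 2) (hcard 0 1 one_pos) (hcard 0 2 two_pos)
  have hg0 : ρ g 0 = 0 := hmap 0 0 1 2 g one_pos two_pos hg
  have hg1 : g ≠ 1 := by
    rintro rfl
    rw [map_one] at hg
    have h1 : (S 0 1).image (1 : ℚ ≃o ℚ) = S 0 1 := Finset.image_id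
    rw [h1] at hg
    have h2 : (1 : ℚ) ∈ S 0 1 := Finset.mem_image.2 ⟨1, Finset.mem_range.2 (by omega), by simp⟩
    rw [hg] at h2
    obtain ⟨i, _, hi⟩ := Finset.mem_image.1 h2
    have h3 : (2 * i : ℚ) = 1 := by linarith
    have h4 : 2 * i = 1 := by exact_mod_cast h3
    omega
  obtain ⟨n, hn⟩ := exists_Kn g
  have heven : ∀ j, n ≤ j → Even j → ρ (v j) 0 = 0 := fun j hj he =>
    fix_comm hk hρ hg1 hg0 (even_comm hj he hn)
  have hall : ∀ i, ρ (v i) 0 = 0 := by
    intro i
    have he : Even (2 * (n + i + 1)) := even_two_mul _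
    exact fix_comm hk hρ (gen_ne_one Thr _) (heven (2 * (n + i + 1)) (by omega) he)
      (gen_comm Thr (Or.inr ⟨by omega, he⟩ : Thr.Adj (2 * (n + i + 1)) i))
  have htop : ∀ g : A, ρ g 0 = 0 := by
    intro g
    have hg : g ∈ Subgroup.closure (Set.range (PresentedGroup.of (rels := rels Thr))) := by
      rw [PresentedGroup.closure_range_of]; exact Subgroup.mem_top g
    induction hg using Subgroup.closure_induction with
    | mem x hx =>
      obtain ⟨i, rfl⟩ := hx
      exact hall i
    | one => rw [map_one]; rfl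
    | mul x y _ _ hx hy =>
      rw [map_mul]
      show ρ x (ρ y 0) = 0
      rw [hy, hx]
    | inv x _ hx =>
      have h3 : ρ x⁻¹ (ρ x 0) = 0 := by
        have : ρ (x⁻¹ * x) 0 = 0 := by rw [inv_mul_cancel, map_one]; rfl
        rwa [map_mul] at this
      rwa [hx] at h3
  obtain ⟨h, hh, _⟩ := hρ (S 0 1) (S 1 1) (hcard 0 1 one_pos) (hcard 1 1 one_pos)
  have h5 := hmap 0 1 1 1 h one_pos one_pos hh
  rw [htop h] at h5
  exact absurd h5 (by norm_num)

end action

/-- **There is a non-cyclic right-angled Artin group (with countably many generators), not a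
direct product of two nontrivial groups, without sharply `k`-transitive order-preserving action
on `(ℚ, <)` for all `k ≥ 2`.** -/
theorem result : ∃ Γ : SimpleGraph ℕ, ¬ IsCyclic (RAAG Γ) ∧
    (∀ (H1 H2 : Type u) [Group H1] [Group H2] [Nontrivial H1] [Nontrivial H2],
      IsEmpty (RAAG Γ ≃* H1 × H2)) ∧
    ∀ k : ℕ, 2 ≤ k → ¬ ∃ ρ : RAAG Γ →* (ℚ ≃o ℚ), SharplyTransitive k ρ := by
  refine ⟨Thr, not_cyclic, fun H1 H2 _ _ _ _ => ⟨fun e => not_prod e⟩, ?_⟩
  rintro k hk ⟨ρ, hρ⟩
  exact no_action hk hρ

end Pool.Agent.Results.MP_781439_al.InfiniteGraph
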